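import Pool.Agent.Helper51.PF.Goals

/-!
# Packet PF-SWP (exchange trick)
-/

set_option autoImplicit false

namespace Pool.Agent.Helper14.PF

open Finset
open Pool.Agent.Helper51.PF

theorem sum_cls {n : ℕ} (τ0 : Equiv.Perm (Fin n)) (D : Finset (Fin n)) (a b : Fin n)
    (ha : a ∉ D) (hb : b ∉ D) (f : Equiv.Perm (Fin n) → ℂ) :
    ∑ τ ∈ cls τ0 D, f (τ * Equiv.swap a b) = ∑ τ ∈ cls τ0 D, f τ := by
  refine Finset.sum_equiv (Equiv.mulRight (Equiv.swap a b)) (fun τ => ?_) (fun τ _ => rfl)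
  unfold cls
  simp only [mem_filter, mem_univ, true_and, Equiv.coe_mulRight]
  refine forall₂_congr fun x hx => ?_
  have hxa : x ≠ a := fun h => ha (h ▸ hx)
  have hxb : x ≠ b := fun h => hb (h ▸ hx)
  rw [Equiv.Perm.mul_apply, Equiv.swap_apply_of_ne_of_ne hxa hxb]

theorem exch {n L : ℕ} (τ0 : Equiv.Perm (Fin n)) (D : Finset (Fin n)) (u w : Fin L → Fin n)
    (hu : Function.Injective u) (hw : Function.Injective w) (huw : ∀ i j, u i ≠ w j)
    (huD : ∀ i, u i ∉ D) (hwD : ∀ i, w i ∉ D) (φ : Fin n → ℂ) (A : Finset (Fin L)) :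
    ∀ g : Equiv.Perm (Fin n) → ℂ, (∀ l ∈ A, ∀ τ, g (τ * Equiv.swap (u l) (w l)) = g τ) →
    ∑ τ ∈ cls τ0 D, g τ * ∏ l ∈ A, φ (τ (u l)) =
      ∑ τ ∈ cls τ0 D, g τ * ∏ l ∈ A, ((φ (τ (u l)) + φ (τ (w l))) / 2) := by
  induction A using Finset.induction_on with
  | empty => intro g _; simp
  | insert a A haA ih =>
    intro g hg
    have hne : ∀ l ∈ A, l ≠ a := fun l hl h => haA (h ▸ hl)
    -- first the pairs of `A`
    have h1 := ih (fun τ => g τ * φ (τ (u a))) (fun l hl τ => by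
      rw [hg l (mem_insert_of_mem hl), Equiv.Perm.mul_apply,
        Equiv.swap_apply_of_ne_of_ne (fun h => hne l hl (hu h).symm) (huw a l)])
    have h2 : ∑ τ ∈ cls τ0 D, g τ * ∏ l ∈ insert a A, φ (τ (u l)) =
        ∑ τ ∈ cls τ0 D, g τ * φ (τ (u a)) * ∏ l ∈ A, φ (τ (u l)) := by
      refine Finset.sum_congr rfl fun τ _ => ?_
      rw [Finset.prod_insert haA]
      ring
    rw [h2, h1]
    -- now the pair of `a`
    set H : Equiv.Perm (Fin n) → ℂ := fun τ =>
      g τ * ∏ l ∈ A, ((φ (τ (u l)) + φ (τ (w l))) / 2) with hH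
    have hHa : ∀ τ, H (τ * Equiv.swap (u a) (w a)) = H τ := by
      intro τ
      simp only [hH]
      rw [hg a (mem_insert_self _ _)]
      congr 1
      refine Finset.prod_congr rfl fun l hl => ?_
      have e1 : Equiv.swap (u a) (w a) (u l) = u l :=
        Equiv.swap_apply_of_ne_of_ne (fun h => hne l hl (hu h)) (huw l a)
      have e2 : Equiv.swap (u a) (w a) (w l) = w l :=
        Equiv.swap_apply_of_ne_of_ne (huw a l).symm (fun h => hne l hl (hw h))
      rw [Equiv.Perm.mul_apply, Equiv.Perm.mul_apply, e1, e2]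
    have h3 : ∑ τ ∈ cls τ0 D, H τ * φ (τ (w a)) = ∑ τ ∈ cls τ0 D, H τ * φ (τ (u a)) := by
      have h4 := sum_cls τ0 D (u a) (w a) (huD a) (hwD a) (fun τ => H τ * φ (τ (u a)))
      rw [← h4]
      refine Finset.sum_congr rfl fun τ _ => ?_
      rw [hHa, Equiv.Perm.mul_apply, Equiv.swap_apply_left]
    calc ∑ τ ∈ cls τ0 D, g τ * φ (τ (u a)) * ∏ l ∈ A, ((φ (τ (u l)) + φ (τ (w l))) / 2)
        = ∑ τ ∈ cls τ0 D, H τ * φ (τ (u a)) := by
          refine Finset.sum_congr rfl fun τ _ => ?_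
          simp only [hH]
          ring
      _ = (∑ τ ∈ cls τ0 D, H τ * φ (τ (u a)) + ∑ τ ∈ cls τ0 D, H τ * φ (τ (w a))) / 2 := by
          rw [h3]
          ring
      _ = ∑ τ ∈ cls τ0 D, g τ * ∏ l ∈ insert a A, ((φ (τ (u l)) + φ (τ (w l))) / 2) := by
          rw [← Finset.sum_add_distrib, Finset.sum_div]
          refine Finset.sum_congr rfl fun τ _ => ?_
          rw [Finset.prod_insert haA]
          simp only [hH]
          ring

theorem norm_char {G : Type} [CommGroup G] [Fintype G] (f : G →* ℂˣ) (x : G) :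
    ‖((f x : ℂˣ) : ℂ)‖ = 1 := by
  have h1 : ((f x : ℂˣ) : ℂ) ^ Fintype.card G = 1 := by
    have h2 : (f x) ^ Fintype.card G = 1 := by
      rw [← map_pow, pow_card_eq_one, map_one]
    have h3 := congrArg (fun z : ℂˣ => (z : ℂ)) h2
    simpa using h3
  exact Complex.norm_eq_one_of_pow_eq_one h1 Fintype.card_ne_zero

theorem g_swp : Pool.Agent.Helper51.PF.G_SWP := by
  intro G _ _ n L q v D τ0 Dj Φ j0 u w hu hw huj hwD hwj hDD hjj
  have huw : ∀ i j, u i ≠ w j := fun i j h => hwj j j0 (h ▸ huj i)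
  have huD : ∀ i, u i ∉ D := fun i => Finset.disjoint_left.1 (hDD j0) (huj i)
  set φ : Fin n → ℂ := fun x => ((Φ j0 (v x) : ℂˣ) : ℂ) with hφ
  set U : Finset (Fin n) := univ.image u with hU
  have hUD : U ⊆ Dj j0 := by
    intro x hx
    obtain ⟨i, -, rfl⟩ := mem_image.1 hx
    exact huj i
  set g : Equiv.Perm (Fin n) → ℂ := fun τ =>
    (∏ j ∈ univ.erase j0, ((Φ j (bprod v τ (Dj j)) : ℂˣ) : ℂ)) *
      ∏ i ∈ Dj j0 \ U, φ (τ i) with hg
  have hcast : ∀ (j : Fin q) (τ : Equiv.Perm (Fin n)) (S : Finset (Fin n)),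
      ((Φ j (bprod v τ S) : ℂˣ) : ℂ) = ∏ i ∈ S, ((Φ j (v (τ i)) : ℂˣ) : ℂ) := by
    intro j τ S
    unfold bprod
    rw [map_prod, Units.coe_prod]
  have hF : ∀ τ, ∏ j, ((Φ j (bprod v τ (Dj j)) : ℂˣ) : ℂ) =
      g τ * ∏ l ∈ (univ : Finset (Fin L)), φ (τ (u l)) := by
    intro τ
    rw [← Finset.mul_prod_erase univ _ (mem_univ j0), hcast j0 τ (Dj j0),
      ← Finset.prod_sdiff hUD]
    have h1 : ∏ i ∈ U, ((Φ j0 (v (τ i)) : ℂˣ) : ℂ) =
        ∏ l ∈ (univ : Finset (Fin L)), φ (τ (u l)) := by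
      rw [hU, Finset.prod_image fun x _ y _ h => hu h]
    rw [h1]
    simp only [hg, hφ]
    ring
  have hginv : ∀ l ∈ (univ : Finset (Fin L)), ∀ τ, g (τ * Equiv.swap (u l) (w l)) = g τ := by
    intro l _ τ
    simp only [hg]
    congr 1
    · refine Finset.prod_congr rfl fun j hj => ?_
      have hjne : j ≠ j0 := Finset.ne_of_mem_erase hj
      rw [hcast, hcast]
      refine Finset.prod_congr rfl fun i hi => ?_
      have h1 : i ≠ u l := by
        rintro rfl
        exact Finset.disjoint_left.1 (hjj j j0 hjne) hi (huj l)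
      have h2 : i ≠ w l := by
        rintro rfl
        exact hwj l j hi
      rw [Equiv.Perm.mul_apply, Equiv.swap_apply_of_ne_of_ne h1 h2]
    · refine Finset.prod_congr rfl fun i hi => ?_
      rw [mem_sdiff] at hi
      have h1 : i ≠ u l := by
        rintro rfl
        exact hi.2 (mem_image_of_mem _ (mem_univ l))
      have h2 : i ≠ w l := by
        rintro rfl
        exact hwj l j0 hi.1
      rw [Equiv.Perm.mul_apply, Equiv.swap_apply_of_ne_of_ne h1 h2]
  have hnorm : ∀ τ, ‖g τ‖ = 1 := by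
    intro τ
    simp only [hg]
    rw [norm_mul, norm_prod, norm_prod, Finset.prod_eq_one fun j _ => norm_char _ _,
      Finset.prod_eq_one fun i _ => norm_char _ _, one_mul]
  rw [Finset.sum_congr rfl fun τ _ => hF τ, exch τ0 D u w hu hw huw huD hwD φ univ g hginv]
  refine (norm_sum_le _ _).trans (Finset.sum_le_sum fun τ _ => ?_)
  rw [norm_mul, hnorm, one_mul, norm_prod]
  refine le_of_eq (Finset.prod_congr rfl fun l _ => ?_)
  rw [norm_div]
  simp [hφ]

end Pool.Agent.Helper14.PF
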